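import Mathlib
import Pool.Agent.U896.SE.FinalE

/-!
# Removable singularities of closed two-forms of bounded eccentricity

`X` is a closed manifold of dimension `d ≥ 4` with a continuous almost complex structure `J`, and
`K` is a closed subset whose `(d-3)`-dimensional Hausdorff measure is zero. `σ` is a two-form which
is smooth, closed and weakly taming off `K`; it may be unbounded near `K`, without any condition on
its growth or integrability, but where it is large it must be of bounded eccentricity: near every
point of `K`, `σ(v, Jv) ≥ c (|σ| - C) |v|²` with constants `c > 0` and `C`.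
If the components of the set of points near which `σ` is not uniformly taming are small, then `J`
is tamed by a symplectic form, which is equal to `σ + dα` with a smooth one-form `α` outside a
given neighbourhood of `K`.
-/

set_option autoImplicit false

open Set MeasureTheory
open scoped Manifold ContDiff

namespace Pool.Agent.Results.MP_9986fc_gt.BoundedEccentricity

open Pool.Agent.Y501.SYP Pool.Agent.U896.SEP

theorem result (d : ℕ) (hd : 4 ≤ d) (X : Type) [TopologicalSpace X] [ChartedSpace (ES d) X]
    [IsManifold 𝓘(ℝ, ES d) ∞ X] [CompactSpace X] [T2Space X]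
    (J : End (ES d) X) (hJ : IsAlmostComplex J) (K : Set X) (hK : IsClosed K)
    (hH : ∀ x₀ : X, μH[(d : ℝ) - 3] (chartAt (ES d) x₀ '' (K ∩ (chartAt (ES d) x₀).source)) = 0)
    (σ : Form (ES d) X 2) (hσ : ClosedOff σ K) (hb : ∀ x ∈ K, EccNear σ J K x)
    (hpos : ∀ x, x ∉ K → ∀ v : TangentSpace 𝓘(ℝ, ES d) x, 0 ≤ qd σ J x v)
    (hsmall : ∀ z ∈ Crit σ J K, SmallAll J (connectedComponentIn (Crit σ J K) z) z)
    (U : Set X) (hU : IsOpen U) (hKU : K ⊆ U) :
    ∃ (α : Form (ES d) X 1) (η w : Form (ES d) X 2), IsSmooth α ∧ IsSmooth η ∧ IsD α η ∧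
      IsTamingSymplectic w J ∧ ∀ x, x ∉ U → w x = addF σ η x :=
  removableE hd J hJ K hK hH σ hσ hb hpos hsmall U hU hKU

end Pool.Agent.Results.MP_9986fc_gt.BoundedEccentricity
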