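import Mathlib
import Pool.Agent.U896.SW.FinalM

/-!
# Measurable closed two-forms of bounded eccentricity

`X` is a closed manifold with a continuous almost complex structure `J`, and `σ` is a measurable
two-form with locally integrable coefficients, closed in the sense of distributions. Off a null
set `N` the form is weakly taming, `σ(v, Jv) ≥ 0`, and of bounded eccentricity where it is large:
`σ(v, Jv) ≥ c (|σ| - C) |v|²` with local constants `c > 0` and `C`. If the components of the set
of points near which `σ` is not uniformly taming (off `N`) are small, then `J` is tamed by a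
symplectic form. If moreover `σ` is smooth off a closed set `K`, then the symplectic form can be
chosen equal to `σ + dα`, with a smooth one-form `α`, outside a given neighbourhood of `K`
(the case `K = X` is allowed).
-/

set_option autoImplicit false

open Set MeasureTheory
open scoped Manifold ContDiff

namespace Pool.Agent.Results.MP_9986fc_gt.MeasurableForms

open Pool.Agent.Y501.SYP Pool.Agent.U896.SEP Pool.Agent.U896.SWP

theorem result (d : ℕ) (hd : 0 < d) (X : Type) [TopologicalSpace X] [ChartedSpace (ES d) X]
    [IsManifold 𝓘(ℝ, ES d) ∞ X] [CompactSpace X] [T2Space X]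
    (J : End (ES d) X) (hJ : IsAlmostComplex J) (K N : Set X) (hK : IsClosed K) (hNK : N ⊆ K)
    (hN : NullSet (d := d) N) (σ : Form (ES d) X 2) (hσ : ClosedOff σ K) (hi : LocInt σ)
    (hw : WeaklyClosed σ) (hb : ∀ x ∈ K, EccNear σ J N x)
    (hpos : ∀ x, x ∉ N → ∀ v : TangentSpace 𝓘(ℝ, ES d) x, 0 ≤ qd σ J x v)
    (hsmall : ∀ z ∈ Crit σ J N, SmallAll J (connectedComponentIn (Crit σ J N) z) z)
    (U : Set X) (hU : IsOpen U) (hKU : K ⊆ U) :
    ∃ (α : Form (ES d) X 1) (η w : Form (ES d) X 2), IsSmooth α ∧ IsSmooth η ∧ IsD α η ∧
      IsTamingSymplectic w J ∧ ∀ x, x ∉ U → w x = addF σ η x :=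
  measurableM hd J hJ K N hK hNK hN σ hσ hi hw hb hpos hsmall U hU hKU

end Pool.Agent.Results.MP_9986fc_gt.MeasurableForms
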