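import Mathlib
import Pool.Agent.U896.SQ.FinalQ

/-!
# Regularization of positive closed currents with coefficients in `L¹`

`X` is a closed manifold with a continuous almost complex structure `J`, which is Hölder continuous
with exponent `γ ≤ 1` near the points of a closed set `K` (for instance `K = X`). `σ` is a
measurable two-form, locally integrable and closed in the sense of distributions, smooth and closed
off `K`, with `σ(v, Jv) ≥ 0` off a null set `N ⊆ K`, and with the Cauchy-Schwarz bound
`σ(v, w)² ≤ B σ(v, Jv) σ(w, Jw)` near the points of `K`. If `σ` is `J`-invariant, that is, a positive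
current of type `(1, 1)`, then the bound holds with `B = 1` (`cs_of_invariant`).

Assume that `σ` has Morrey growth of exponent `a < 2 γ`: locally, the integral of `|σ|` over a ball
of radius `t` is at most `C t ^ (d - a)`. For positive currents of type `(1, 1)` and smooth `J` this
holds with `a = 2` by monotonicity, and if `J` is Lipschitz continuous then any exponent `a < 2` is
admitted. If the components of the set of points near which `σ` is not uniformly taming (off `N`)
are small, then `J` is tamed by a symplectic form, equal to `σ + dα` with a smooth one-form `α`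
outside a given neighbourhood of `K`.

Idea of the proof: averages of `σ` at a variable scale. By the Cauchy-Schwarz bound the error which
is due to the oscillation of `J` and to the variation of the scale is quadratic in these quantities,
up to a part which is absorbed by the average of `σ(v, Jv)`, and the averages satisfy a
Cauchy-Schwarz bound again.
-/

set_option autoImplicit false

open Set MeasureTheory
open scoped Manifold ContDiff

namespace Pool.Agent.Results.MP_9986fc_gt.PositiveCurrents

open Pool.Agent.Y501.SYP Pool.Agent.U896.SWP Pool.Agent.U896.SVP Pool.Agent.U896.SQP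

theorem result (d : ℕ) (hd : 2 ≤ d) (X : Type) [TopologicalSpace X] [ChartedSpace (ES d) X]
    [IsManifold 𝓘(ℝ, ES d) ∞ X] [CompactSpace X] [T2Space X]
    (a γ : ℝ) (ha : 0 ≤ a) (haγ : a < 2 * γ) (hγ : γ ≤ 1)
    (J : End (ES d) X) (hJ : IsAlmostComplex J) (K N : Set X) (hK : IsClosed K) (hNK : N ⊆ K)
    (hN : NullSet (d := d) N) (hHol : ∀ x ∈ K, HolderNear γ J x)
    (σ : Form (ES d) X 2) (hσ : ClosedOff σ K) (hi : LocInt σ)
    (hw : WeaklyClosed σ) (hM : MorreyGrowth a σ) (hCS : ∀ x ∈ K, CauchySchwarzNear σ J N x)
    (hpos : ∀ x, x ∉ N → ∀ v : TangentSpace 𝓘(ℝ, ES d) x, 0 ≤ qd σ J x v)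
    (hsmall : ∀ z ∈ Crit σ J N, SmallAll J (connectedComponentIn (Crit σ J N) z) z)
    (U : Set X) (hU : IsOpen U) (hKU : K ⊆ U) :
    ∃ (α : Form (ES d) X 1) (η w : Form (ES d) X 2), IsSmooth α ∧ IsSmooth η ∧ IsD α η ∧
      IsTamingSymplectic w J ∧ ∀ x, x ∉ U → w x = addF σ η x :=
  currentsQ hd ha haγ hγ J hJ K N hK hNK hN hHol σ hσ hi hw hM hCS hpos hsmall U hU hKU

end Pool.Agent.Results.MP_9986fc_gt.PositiveCurrents
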